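import Pool.Agent.N855.DI.Alg
import Pool.Agent.N855.TG.Fin15
import Pool.Agent.N855.TG.Fin21
import Pool.Agent.N855.GF.TwL

/-!
# A partial algorithm, and the proportion of the twists of non-CM curves for which it proves finiteness

There is a partial computable function `φ` on the polynomials `f(x, y)` with integer coefficients
(lists of coefficient lists) with the following properties.
* Whenever `φ(f)` is defined, it answers correctly the question whether `f(x, y) = 0` has infinitely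
  many rational solutions.
* For the elliptic curves `E : y² = x³ + A x + B` with full rational 2-torsion: `φ` has the value
  `true` if and only if there are infinitely many rational points, and the value `false` if and only
  if `E(ℚ)` is finite and `Ш(E/ℚ)` has no element of order two.
* For the elliptic curves without complex multiplication of the conductors `15`, `17`, `21`
  (`y² = x³ - 12987 x - 263466`, `y² = x³ - 91 x - 330`, `y² = x³ - 5211 x - 31050`) and all the
  curves `C` in their classes of quadratic twists, the exact proportions of the twists `C_d`, `d`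
  squarefree of any sign ordered by `|d|`, for which `φ` has the value `false` are `η / 2 = 0.144...`,
  `c / 2 = 0.209...` and `κ η / 256 = 0.148... - 0.161...`.

The earlier result `FullTwoTorsion` (starting file) has the first two properties in terms of the
2-Selmer group. Here the criterion is in terms of `E(ℚ)` and `Ш(E/ℚ)[2]`, and the proportions are
exact, without any assumption.
-/

set_option autoImplicit false

namespace Pool.Agent.Results.MP_d6ddbd_nt.AllTwistsNonCM

open Filter Topology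

/-- the set `Z_f(ℚ)` of the rational zeros of `f = ∑ L_(i,j) x^i y^j` -/
def Zeros (L : List (List ℤ)) : Set (ℚ × ℚ) := {p : ℚ × ℚ |
  ∑ i ∈ Finset.range L.length, ∑ j ∈ Finset.range (L.getD i []).length,
    (((L.getD i []).getD j 0 : ℤ) : ℚ) * p.1 ^ i * p.2 ^ j = 0}

/-- the polynomial `y² - x³ - A x - B` -/
def weier (A B : ℤ) : List (List ℤ) := [[-B, 0, 1], [-A], [], [-1]]

/-- the curve `y² = x³ + A x + B` over `ℚ` -/
def E (A B : ℤ) : WeierstrassCurve ℚ := ⟨0, 0, 0, (A : ℚ), (B : ℚ)⟩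

/-- `y² = x³ + A x + B` is an elliptic curve with full rational 2-torsion -/
def Full (A B : ℤ) : Prop := 4 * A ^ 3 + 27 * B ^ 2 ≠ 0 ∧
  ∃ f : ZMod 2 × ZMod 2 →+ (E A B).toAffine.Point, Function.Injective f

/-- `E(ℚ)` is finite and `Ш(E/ℚ)` has no element of order two, for `E : y² = x³ + A x + B` -/
def RankZeroShaTwo (A B : ℤ) : Prop :=
  Finite (E A B).toAffine.Point ∧ ∀ x : Pool.Agent.TH841.SH.D.Sha (E A B), 2 • x = 0 → x = 0

/-- the number of the squarefree `d` with `|d| < X` and the property `Q` -/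
noncomputable def count (Q : ℤ → Prop) (X : ℝ) : ℕ :=
  {d : ℤ | Squarefree d ∧ |(d : ℝ)| < X ∧ Q d}.ncard

/-- For the curve `C : y² = x³ + a e² x + b e³`: `δ` is the proportion of the twists
`C_d : y² = x³ + a (e d)² x + b (e d)³`, `d` squarefree, for which `φ` has the value `false`. -/
def Density (φ : List (List ℤ) →. Bool) (a b e : ℤ) (δ : ℝ) : Prop :=
  Tendsto (fun X : ℝ => (count (fun d => false ∈ φ (weier (a * (e * d) ^ 2) (b * (e * d) ^ 3))) X : ℝ) /
    (count (fun _ => True) X : ℝ)) atTop (𝓝 δ)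

/-- the constant `∏_{i ≥ 1} (1 - 2^{-i}) = 0.2888...` -/
noncomputable def η : ℝ := ∏' i : ℕ, (1 - (1 / 2 : ℝ) ^ (i + 1))

/-- the constant `∏_{i ≥ 0} (1 - 2^{-(2i+1)}) = 0.4194...` -/
noncomputable def c : ℝ := ∏' i : ℕ, (1 - (1 / 2 : ℝ) ^ (2 * i + 1))

/-- `256 / η` times the proportion for the conductor `21` -/
def κ (e : ℤ) : ℝ := if e % 3 = 0 then (if e % 7 = 0 then 133 else 131) else
  (if e % 7 = 0 then 143 else 137)

section proof

open Pool.Agent.N855.TG
open Pool.Agent.N855.DI (RZ Rts)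
open Pool.Agent.N875.X15 (Fin2)

theorem rz_eq (a b m : ℤ) : RZ (a * m ^ 2) (b * m ^ 3) ↔ Fin2 (W a b m) := by
  unfold Pool.Agent.N855.DI.RZ Pool.Agent.N875.X15.Fin2
  refine and_congr Iff.rfl (forall_congr' fun x => ?_)
  rw [two_nsmul]
  exact Iff.rfl

theorem rz17_eq (m : ℤ) : RZ (-91 * m ^ 2) (-330 * m ^ 3) ↔ Fin2 (Pool.Agent.N875.P17.WS m) := by
  unfold Pool.Agent.N855.DI.RZ Pool.Agent.N875.X15.Fin2
  refine and_congr Iff.rfl (forall_congr' fun x => ?_)
  rw [two_nsmul]
  exact Iff.rfl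

theorem rts15 {m : ℤ} (hm : m ≠ 0) : Rts (-12987 * m ^ 2) (-263466 * m ^ 3) := by
  refine ⟨?_, -21 * m, -102 * m, 123 * m, fun x => by ring⟩
  have : 4 * (-12987 * m ^ 2) ^ 3 + 27 * (-263466 * m ^ 3) ^ 2 =
      (4 * (-12987) ^ 3 + 27 * (-263466) ^ 2) * m ^ 6 := by ring
  rw [this]
  exact mul_ne_zero (by norm_num) (pow_ne_zero 6 hm)

theorem rts21 {m : ℤ} (hm : m ≠ 0) : Rts (-5211 * m ^ 2) (-31050 * m ^ 3) := by
  refine ⟨?_, -6 * m, -69 * m, 75 * m, fun x => by ring⟩
  have : 4 * (-5211 * m ^ 2) ^ 3 + 27 * (-31050 * m ^ 3) ^ 2 =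
      (4 * (-5211) ^ 3 + 27 * (-31050) ^ 2) * m ^ 6 := by ring
  rw [this]
  exact mul_ne_zero (by norm_num) (pow_ne_zero 6 hm)

theorem rts17 {m : ℤ} (hm : m ≠ 0) : Rts (-91 * m ^ 2) (-330 * m ^ 3) := by
  refine ⟨?_, -5 * m, -6 * m, 11 * m, fun x => by ring⟩
  have : 4 * (-91 * m ^ 2) ^ 3 + 27 * (-330 * m ^ 3) ^ 2 =
      (4 * (-91) ^ 3 + 27 * (-330) ^ 2) * m ^ 6 := by ring
  rw [this]
  exact mul_ne_zero (by norm_num) (pow_ne_zero 6 hm)

/-- the counts agree -/
theorem density_of {φ : List (List ℤ) →. Bool} {a b e : ℤ} {δ : ℝ} {P : ℤ → Prop}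
    (h : ∀ d : ℤ, Squarefree d → (false ∈ φ (weier (a * (e * d) ^ 2) (b * (e * d) ^ 3)) ↔ P (e * d)))
    (hl : Tendsto (fun X : ℝ => (count (fun d => P (e * d)) X : ℝ) / (count (fun _ => True) X : ℝ))
      atTop (𝓝 δ)) : Density φ a b e δ := by
  refine hl.congr fun X => ?_
  have e1 : count (fun d => P (e * d)) X =
      count (fun d => false ∈ φ (weier (a * (e * d) ^ 2) (b * (e * d) ^ 3))) X := by
    unfold count
    congr 1
    ext d
    exact and_congr_right fun hd => and_congr_right fun _ => (h d hd).symm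
  rw [e1]

theorem lim15 {e : ℤ} (he : Squarefree e) :
    Tendsto (fun X : ℝ => (count (fun d => Fin2 (W (-12987) (-263466) (e * d))) X : ℝ) /
      (count (fun _ => True) X : ℝ)) atTop (𝓝 (η / 2)) :=
  Pool.Agent.N855.GF.Fin17.lim_real (fin15 he)

theorem lim21 {e : ℤ} (he : Squarefree e) :
    Tendsto (fun X : ℝ => (count (fun d => Fin2 (W (-5211) (-31050) (e * d))) X : ℝ) /
      (count (fun _ => True) X : ℝ)) atTop (𝓝 (κ e / 256 * η)) :=
  Pool.Agent.N855.GF.Fin17.lim_real (fin21 he)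

theorem lim17 {e : ℤ} (he : Squarefree e) :
    Tendsto (fun X : ℝ => (count (fun d => Fin2 (Pool.Agent.N875.P17.WS (e * d))) X : ℝ) /
      (count (fun _ => True) X : ℝ)) atTop (𝓝 (c / 2)) := by
  have h : Tendsto (fun X : ℕ => (Pool.Agent.N919.BS.NS (fun d =>
      Pool.Agent.N919.BS.Rt17 (Pool.Agent.N855.GF.Tw.tw e d) ∧
      Pool.Agent.N916.MO.G17 (Pool.Agent.N855.GF.Tw.tw e d)) X : ℝ) /
      (Pool.Agent.N919.BS.NS (fun _ => True) X : ℝ))
      atTop (𝓝 (Pool.Agent.Y703.CQ.c2 / 2)) := Pool.Agent.N855.GF.Tw.lim_T he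
  refine (Pool.Agent.N855.GF.Fin17.lim_real h).congr fun X => ?_
  have e1 : count (fun d => Fin2 (Pool.Agent.N875.P17.WS (e * d))) X =
      Pool.Agent.N855.GF.Ord.Ng (fun d => Pool.Agent.N919.BS.Rt17 (Pool.Agent.N855.GF.Tw.tw e d) ∧
        Pool.Agent.N916.MO.G17 (Pool.Agent.N855.GF.Tw.tw e d)) X := by
    unfold count Pool.Agent.N855.GF.Ord.Ng
    congr 1
    ext d
    refine and_congr_right fun hd => and_congr_right fun _ => ?_
    exact Pool.Agent.N855.GF.TwL.fin2_tw he hd
  rw [e1]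
  rfl

theorem sqf_ne {e d : ℤ} (he : Squarefree e) (hd : Squarefree d) : e * d ≠ 0 :=
  mul_ne_zero he.ne_zero hd.ne_zero

theorem dens15 {φ : List (List ℤ) →. Bool}
    (hf : ∀ A B : ℤ, Rts A B → (false ∈ φ (Pool.Agent.N855.DI.weier A B) ↔ RZ A B))
    {e : ℤ} (he : Squarefree e) : Density φ (-12987) (-263466) e (η / 2) := by
  refine density_of (P := fun m => Fin2 (W (-12987) (-263466) m)) (fun d hd => ?_) (lim15 he)
  exact (hf _ _ (rts15 (sqf_ne he hd))).trans (rz_eq (-12987) (-263466) (e * d))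

theorem dens21 {φ : List (List ℤ) →. Bool}
    (hf : ∀ A B : ℤ, Rts A B → (false ∈ φ (Pool.Agent.N855.DI.weier A B) ↔ RZ A B))
    {e : ℤ} (he : Squarefree e) : Density φ (-5211) (-31050) e (κ e / 256 * η) := by
  refine density_of (P := fun m => Fin2 (W (-5211) (-31050) m)) (fun d hd => ?_) (lim21 he)
  exact (hf _ _ (rts21 (sqf_ne he hd))).trans (rz_eq (-5211) (-31050) (e * d))

theorem dens17 {φ : List (List ℤ) →. Bool}
    (hf : ∀ A B : ℤ, Rts A B → (false ∈ φ (Pool.Agent.N855.DI.weier A B) ↔ RZ A B))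
    {e : ℤ} (he : Squarefree e) : Density φ (-91) (-330) e (c / 2) := by
  refine density_of (P := fun m => Fin2 (Pool.Agent.N875.P17.WS m)) (fun d hd => ?_) (lim17 he)
  exact (hf _ _ (rts17 (sqf_ne he hd))).trans (rz17_eq (e * d))

theorem bds : (0.1443 < η / 2 ∧ η / 2 < 0.1445) ∧ (0.2097 < c / 2 ∧ c / 2 < 0.2098) ∧
    ∀ e : ℤ, 0.1477 < κ e / 256 * η ∧ κ e / 256 * η < 0.1614 := by
  have hc1 : 0.2887 < η := Pool.Agent.N916.GB.eta_bounds.1
  have hc2 : η < 0.2889 := Pool.Agent.N916.GB.eta_bounds.2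
  have hc3 : 0.4194 < c := Pool.Agent.Y948.CQ.t_C2.2.2.2.1
  have hc4 : c < 0.4195 := Pool.Agent.Y948.CQ.t_C2.2.2.2.2
  refine ⟨⟨by linarith, by linarith⟩, ⟨by linarith, by linarith⟩, fun e => ?_⟩
  have hk : 131 ≤ κ e ∧ κ e ≤ 143 := by
    unfold κ
    split_ifs <;> norm_num
  obtain ⟨hk1, hk2⟩ := hk
  constructor <;> nlinarith

end proof

/-- **Theorem.** There is a partial computable function `φ` from the lists of lists of integers
(polynomials `f(x, y)`) to `{true, false}` such that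
(1) if `φ(f)` is defined, then it is `true` if and only if `f` has infinitely many rational zeros;
(2) for every curve `E : y² = x³ + A x + B` with full rational 2-torsion, `φ` has the value `false`
at `y² - x³ - A x - B` if and only if `E(ℚ)` is finite and `Ш(E/ℚ)` has no element of order two;
(3) for every such curve, `φ` has the value `true` if and only if there are infinitely many rational
points;
(4) for every squarefree integer `e`, the natural densities of the squarefree integers `d` (of any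
sign) for which `φ` has the value `false` at the twist by `e d` of `y² = x³ - 12987 x - 263466`,
`y² = x³ - 91 x - 330`, `y² = x³ - 5211 x - 31050` exist and are `η / 2`, `c / 2`, `κ(e) η / 256`. -/
theorem result :
    ∃ φ : List (List ℤ) →. Bool, Partrec φ ∧
    (∀ L, ∀ r ∈ φ L, (r = true ↔ (Zeros L).Infinite)) ∧
    (∀ A B : ℤ, Full A B → (false ∈ φ (weier A B) ↔ RankZeroShaTwo A B)) ∧
    (∀ A B : ℤ, Full A B → (true ∈ φ (weier A B) ↔ (Zeros (weier A B)).Infinite)) ∧
    (∀ e : ℤ, Squarefree e → Density φ (-12987) (-263466) e (η / 2) ∧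
      Density φ (-91) (-330) e (c / 2) ∧ Density φ (-5211) (-31050) e (κ e / 256 * η)) ∧
    (0.1443 < η / 2 ∧ η / 2 < 0.1445) ∧ (0.2097 < c / 2 ∧ c / 2 < 0.2098) ∧
    ∀ e : ℤ, 0.1477 < κ e / 256 * η ∧ κ e / 256 * η < 0.1614 := by
  obtain ⟨φ, hφ, hsound, hf, ht⟩ := Pool.Agent.N855.DI.alg
  exact ⟨φ, hφ, hsound, fun A B hF => hf A B (Pool.Agent.N855.DI.rts_of hF.1 hF.2),
    fun A B hF => ht A B (Pool.Agent.N855.DI.rts_of hF.1 hF.2),
    fun e he => ⟨dens15 hf he, dens17 hf he, dens21 hf he⟩, bds⟩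

end Pool.Agent.Results.MP_d6ddbd_nt.AllTwistsNonCM
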