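import Mathlib
import Pool.Agent.N873.MF.Tr
import Pool.Agent.N855.DI.Alg

/-!
# One partial algorithm for plane curves, and the law of the twists which it decides for arbitrarily many elliptic
# curves at once

There is a partial computable function `φ` on the polynomials `f(x, y)` with integer coefficients, whose values are
correct answers to the question whether `f` has infinitely many rational zeros, with the following property.
Let `F` be any finite nonempty set of pairs `(a, b)` of coprime integers, `a` odd, `b ≠ 0` even. For `c = (a, b)` and `m ≥ 1`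
let `f m c` be the polynomial `y² - (x + 3 m (a² + b²)) (x - 3 m (2 a² - b²)) (x - 3 m (2 b² - a²))` of the curve `E m c`, which
is isomorphic to `y² = x (x - m a²) (x - m b²)`. The `n` are those of the set `N F` of positive lower density: squarefree,
`3` modulo `8`, for all the pairs of `F`, `-n` is not a nonzero square modulo the odd primes dividing `a b` and `n` is
not one modulo the odd primes dividing `a² - b²`. Let `d_1, …, d_r` be independent modulo squares, squarefree, `1`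
modulo `8` and nonzero squares modulo all these primes (`Disc F`; they exist for all `r`), `D_T = ∏_{i ∈ T} d_i`.

For `n` in `N F`, a set `T` and `c` in `F`: `φ (f (n D_T) c)` has the value `false` if and only if the class group of
`ℚ(√(-n D_T))` has no element of order four, and if and only if `E(ℚ)` is finite and `Ш(E/ℚ)` has no element of
2-power order, `E = E (n D_T) c`; it has the value `true` if and only if there are infinitely many rational zeros.
For every set `V` of subsets of `{1, …, r}` the `n` for which `V` is the set of the `T` such that `φ` proves the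
finiteness for ALL the curves `E (n D_T) c`, `c` in `F`, have in `N F` the natural density
`η ^ #V (1 - η) ^ (2 ^ r - #V)`, `η = ∏ (1 - 2^(-i)) = 0.288…`. The number of these `T` has the binomial law. In particular `φ`
decides all the `2 ^ r #F` questions at once for the `n` of a set of density at least `η ^ 2 ^ r`.

The algorithm: helper855 and the starting files (`Pool/Agent/N855/DI`, `Pool/Agent/R395/FT`). The curves: project MF,
parts by helpers 97, 136, 273, 368, 482, 519, 588, 603, 614, 615, 700, 747, 756, 767, 776, 873, 887, 891, 966, 973; the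
joint law of the class groups is due to helper856 and his coauthors (`Pool/Agent/N856/JM`, `JT`).
-/

set_option autoImplicit false

open NumberField Filter Topology

namespace Pool.Agent.Results.MP_d6ddbd_nt.ManyCurvesAtOnce

open Pool.Agent.TH841.SH.D (Sha)

/-- the set `Z_f(ℚ)` of the rational zeros of `f = ∑ L_(i,j) x^i y^j` -/
def Zeros (L : List (List ℤ)) : Set (ℚ × ℚ) := {p : ℚ × ℚ |
  ∑ i ∈ Finset.range L.length, ∑ j ∈ Finset.range (L.getD i []).length,
    (((L.getD i []).getD j 0 : ℤ) : ℚ) * p.1 ^ i * p.2 ^ j = 0}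

/-- the polynomial `y² - x³ - A x - B` -/
def weier (A B : ℤ) : List (List ℤ) := [[-B, 0, 1], [-A], [], [-1]]

/-- the pairs -/
def Pair (c : ℤ × ℤ) : Prop := IsCoprime c.1 c.2 ∧ Odd c.1 ∧ Even c.2 ∧ c.2 ≠ 0

/-- `m` is a nonzero square modulo `p` -/
def NzSq (p : ℕ) (m : ℤ) : Prop := (m : ZMod p) ≠ 0 ∧ IsSquare (m : ZMod p)

/-- the numbers of the twists -/
def N (F : Finset (ℤ × ℤ)) (n : ℕ) : Prop := Squarefree n ∧ n % 8 = 3 ∧
  ∀ c ∈ F, ∀ p : ℕ, p.Prime → p ≠ 2 → ((p : ℤ) ∣ c.1 * c.2 → ¬ NzSq p (-n)) ∧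
    ((p : ℤ) ∣ c.1 ^ 2 - c.2 ^ 2 → ¬ NzSq p n)

/-- the discriminants -/
def Disc (F : Finset (ℤ × ℤ)) (d : ℕ) : Prop := Squarefree d ∧ d % 8 = 1 ∧
  ∀ c ∈ F, ∀ p : ℕ, p.Prime → p ≠ 2 → ((p : ℤ) ∣ c.1 * c.2 ∨ (p : ℤ) ∣ c.1 ^ 2 - c.2 ^ 2) → NzSq p d

/-- the coefficient `A` of `y² = x³ + A x + B` -/
def A (m : ℤ) (c : ℤ × ℤ) : ℤ := -27 * (c.1 ^ 4 - c.1 ^ 2 * c.2 ^ 2 + c.2 ^ 4) * m ^ 2

/-- the coefficient `B` of `y² = x³ + A x + B` -/
def B (m : ℤ) (c : ℤ × ℤ) : ℤ :=
  27 * (c.1 ^ 2 + c.2 ^ 2) * (2 * c.1 ^ 2 - c.2 ^ 2) * (2 * c.2 ^ 2 - c.1 ^ 2) * m ^ 3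

/-- the curve -/
def E (m : ℕ) (c : ℤ × ℤ) : WeierstrassCurve ℚ := ⟨0, 0, 0, (A m c : ℚ), (B m c : ℚ)⟩

/-- the polynomial of the curve -/
def f (m : ℕ) (c : ℤ × ℤ) : List (List ℤ) := weier (A m c) (B m c)

/-- `φ` has the value `false` for all the curves `E m c`, `c` in `F` -/
def AllFalse (φ : List (List ℤ) →. Bool) (F : Finset (ℤ × ℤ)) (m : ℕ) : Prop := ∀ c ∈ F, false ∈ φ (f m c)

/-- finitely many rational points and no element of 2-power order in `Ш` -/
def Trivial (W : WeierstrassCurve ℚ) : Prop := Finite W.toAffine.Point ∧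
  ∀ (k : ℕ) (x : Sha W), (2 ^ k : ℕ) • x = 0 → x = 0

/-- the `d_i` are independent modulo squares -/
def Independent {r : ℕ} (d : Fin r → ℕ) : Prop :=
  ∀ T : Finset (Fin r), T.Nonempty → ¬ IsSquare (∏ i ∈ T, d i)

/-- the class group of `ℚ(√-m)` has no element of order four -/
def NoFour (m : ℕ) : Prop := ∀ (K : Type) [Field K] [NumberField K], Module.finrank ℚ K = 2 →
  (∃ s : K, s ^ 2 = -(m : K)) → ∀ x : ClassGroup (𝓞 K), x ^ 4 = 1 → x ^ 2 = 1

/-- the limit `(1 - 1/2) (1 - 1/4) (1 - 1/8) ⋯` -/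
noncomputable def eta : ℝ := ∏' i : ℕ, (1 - (1 / 2 : ℝ) ^ (i + 1))

open Classical in
/-- the number of the `m ≤ X` with the property `P` -/
noncomputable def count (P : ℕ → Prop) (X : ℕ) : ℕ := ((Finset.Icc 1 X).filter fun m => P m).card

/-- among the numbers with the property `P`, those with the property `Q` have natural density `δ` -/
def HasDensity (P Q : ℕ → Prop) (δ : ℝ) : Prop :=
  Tendsto (fun X : ℕ => (count (fun m => P m ∧ Q m) X : ℝ) / (count P X : ℝ)) atTop (𝓝 δ)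

section proof

open Pool.Agent.N873.UT (NF Pr Adm parts2)
open Pool.Agent.N873.MF (Dc Gd EK cA cB parts gd_iff nf_prod pos_prod dens_pat dc_gt triv_prod TrivW trivW_iff
  disc FourRank)
open Pool.Agent.N969.P15 (Qc)
open Pool.Agent.N856.JL (sfp sfp_self)

lemma pair_imp {c : ℤ × ℤ} (h : Pair c) : Pr c := by
  obtain ⟨h1, h2, h3, h4⟩ := h
  exact ⟨h1, Int.odd_iff.1 h2, Int.even_iff.1 h3, h4⟩

lemma nz_iff (p : ℕ) (hp : p.Prime) (m : ℤ) : NzSq p m ↔ jacobiSym m p = 1 := by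
  have : Fact p.Prime := ⟨hp⟩
  unfold NzSq
  rw [← jacobiSym.legendreSym.to_jacobiSym]
  constructor
  · rintro ⟨h1, h2⟩
    exact (legendreSym.eq_one_iff p h1).2 h2
  · intro h
    have h1 : (m : ZMod p) ≠ 0 := by
      intro h0
      rw [(legendreSym.eq_zero_iff p m).2 h0] at h
      exact absurd h (by norm_num)
    exact ⟨h1, (legendreSym.eq_one_iff p h1).1 h⟩

lemma N_iff {F : Finset (ℤ × ℤ)} (hF : ∀ c ∈ F, Pair c) (n : ℕ) : N F n ↔ n ∈ NF F := by
  constructor
  · rintro ⟨h1, h2, h3⟩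
    refine ⟨h1, h2, fun c hc => ?_⟩
    obtain ⟨k1, k2, k3, k4⟩ := pair_imp (hF c hc)
    exact ⟨h1, h2, k1, k2, k3, k4,
      fun p hp hp2 hd h => (h3 c hc p hp hp2).1 hd ((nz_iff p hp _).2 h),
      fun p hp hp2 hd h => (h3 c hc p hp hp2).2 hd ((nz_iff p hp _).2 h)⟩
  · rintro ⟨h1, h2, h3⟩
    refine ⟨h1, h2, fun c hc p hp hp2 => ⟨fun hd h => ?_, fun hd h => ?_⟩⟩
    · exact (h3 c hc).ab p hp hp2 hd ((nz_iff p hp _).1 h)
    · exact (h3 c hc).dd p hp hp2 hd ((nz_iff p hp _).1 h)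

lemma D_iff (F : Finset (ℤ × ℤ)) (d : ℕ) : Disc F d ↔ Dc F d := by
  unfold Disc Dc
  refine and_congr_right fun _ => and_congr_right fun _ => forall_congr' fun c =>
    forall_congr' fun _ => forall_congr' fun p => forall_congr' fun hp => forall_congr' fun _ =>
    forall_congr' fun _ => ?_
  exact nz_iff p hp d

lemma dens_iff' {P P' Q Q' : ℕ → Prop} {δ : ℝ} (hP : ∀ m, P m ↔ P' m) (hQ : ∀ m, P m → (Q m ↔ Q' m))
    (h : Pool.Agent.N856.JL.Av.HasDensity P Q δ) : HasDensity P' Q' δ := by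
  have e1 : P = P' := funext fun m => propext (hP m)
  subst e1
  have e2 : (fun m => P m ∧ Q m) = fun m => P m ∧ Q' m :=
    funext fun m => propext (and_congr_right fun h => hQ m h)
  unfold Pool.Agent.N856.JL.Av.HasDensity at h
  unfold HasDensity
  rw [← e2]
  exact h

open Classical in
/-- the law of the number of the elements -/
lemma dens_card {ι : Type} [Fintype ι] {P : ℕ → Prop} {Q : ℕ → ι → Prop} {η : ℝ}
    (h : ∀ V : Finset ι, HasDensity P (fun n => ∀ T, (Q n T ↔ T ∈ V))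
      (η ^ V.card * (1 - η) ^ (Fintype.card ι - V.card))) (k : ℕ) :
    HasDensity P (fun n => (Finset.univ.filter fun T => Q n T).card = k)
      ((Fintype.card ι).choose k * (η ^ k * (1 - η) ^ (Fintype.card ι - k))) := by
  unfold HasDensity at h ⊢
  have h1 := tendsto_finsetSum (Finset.powersetCard k (Finset.univ : Finset ι)) fun V _ => h V
  have e1 : ∑ V ∈ Finset.powersetCard k (Finset.univ : Finset ι),
      η ^ V.card * (1 - η) ^ (Fintype.card ι - V.card) =
      (Fintype.card ι).choose k * (η ^ k * (1 - η) ^ (Fintype.card ι - k)) := by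
    rw [Finset.sum_congr rfl fun V hV => by rw [(Finset.mem_powersetCard.1 hV).2],
      Finset.sum_const, Finset.card_powersetCard, nsmul_eq_mul]
    rfl
  rw [e1] at h1
  refine h1.congr fun X => ?_
  rw [← Finset.sum_div]
  congr 1
  rw [← Nat.cast_sum, Nat.cast_inj]
  unfold count
  rw [← Finset.card_biUnion]
  · congr 1
    ext n
    simp only [Finset.mem_biUnion, Finset.mem_powersetCard, Finset.mem_filter]
    constructor
    · rintro ⟨V, ⟨-, hV⟩, hn, hP, hQ⟩
      refine ⟨hn, hP, ?_⟩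
      rw [← hV]
      congr 1
      ext T
      rw [Finset.mem_filter]
      exact ⟨fun h => (hQ T).1 h.2, fun h => ⟨Finset.mem_univ T, (hQ T).2 h⟩⟩
    · rintro ⟨hn, hP, hQ⟩
      refine ⟨Finset.univ.filter fun T => Q n T, ⟨Finset.subset_univ _, hQ⟩, hn, hP, fun T => ?_⟩
      rw [Finset.mem_filter]
      exact ⟨fun h => ⟨Finset.mem_univ T, h⟩, fun h => h.2⟩
  · intro V _ V' _ hne
    rw [Function.onFun, Finset.disjoint_left]
    intro n hn hn'
    simp only [Finset.mem_filter] at hn hn'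
    refine hne (Finset.ext fun T => ?_)
    rw [← hn.2.2 T, ← hn'.2.2 T]

/-- primes in `Disc F` -/
lemma fields {F : Finset (ℤ × ℤ)} (hF : ∀ c ∈ F, Pr c) (r : ℕ) :
    ∃ d : Fin r → ℕ, (∀ i, Dc F (d i)) ∧ Independent d := by
  obtain ⟨f, hf1, hf2⟩ := exists_seq_of_forall_finset_exists (fun x : ℕ => x.Prime ∧ Dc F x)
    (fun x y => x < y) (fun s hs => by
      obtain ⟨n, h3, h4, h5⟩ := dc_gt F hF (∑ x ∈ s, x)
      refine ⟨n, ⟨h4, h5⟩, fun x hx => ?_⟩
      have := Finset.single_le_sum (f := fun x : ℕ => x) (fun _ _ => Nat.zero_le _) hx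
      omega)
  have hmono : StrictMono f := fun a b hab => hf2 a b hab
  refine ⟨fun i => f i, fun i => (hf1 i).2, fun T hT hsq => ?_⟩
  obtain ⟨k, hk⟩ := hT
  obtain ⟨u, hu⟩ := hsq
  rw [← Finset.insert_erase hk, Finset.prod_insert (Finset.notMem_erase k T)] at hu
  have hp := (hf1 k).1
  have h1 : f k ∣ u * u := ⟨_, hu.symm⟩
  have h2 : f k ∣ u := by
    rcases hp.dvd_mul.1 h1 with h | h <;> exact h
  obtain ⟨v, rfl⟩ := h2
  have h3 : ∏ i ∈ T.erase k, f i = f k * (v * v) := by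
    refine Nat.eq_of_mul_eq_mul_left hp.pos ?_
    rw [hu]
    ring
  have h4 : f k ∣ ∏ i ∈ T.erase k, f i := ⟨_, h3⟩
  obtain ⟨j, hj, h5⟩ := (hp.prime.dvd_finsetProd_iff _).1 h4
  have h6 := (Nat.prime_dvd_prime_iff_eq hp (hf1 j).1).1 h5
  have h7 := hmono.injective h6
  exact Finset.ne_of_mem_erase hj (Fin.ext h7.symm)

/-- the criterion -/
lemma noFour_iff (m : ℕ) : NoFour m ↔ FourRank m 0 := by
  refine forall_congr' fun K => forall_congr' fun _ => forall_congr' fun _ => forall_congr' fun _ =>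
    forall_congr' fun _ => ?_
  unfold Pool.Agent.N873.MF.twoFour
  rw [pow_zero, Nat.card_eq_one_iff_unique]
  constructor
  · intro h
    refine ⟨⟨?_⟩, ⟨⟨1, 1, one_pow 4, one_pow 2⟩⟩⟩
    rintro ⟨y, x, hx, hy⟩ ⟨y', x', hx', hy'⟩
    apply Subtype.ext
    show y = y'
    rw [← hy, ← hy', h x hx, h x' hx']
  · rintro ⟨⟨h3⟩, -⟩ x hx
    have := h3 ⟨x ^ 2, x, hx, rfl⟩ ⟨1, 1, one_pow 4, one_pow 2⟩
    exact congrArg Subtype.val this

/-- the roots -/
lemma rts {c : ℤ × ℤ} (hc : Pr c) {m : ℕ} (hm : 0 < m) : Pool.Agent.N855.DI.Rts (A m c) (B m c) := by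
  refine ⟨disc hc (by exact_mod_cast hm.ne'), -3 * m * (c.1 ^ 2 + c.2 ^ 2), 3 * m * (2 * c.1 ^ 2 - c.2 ^ 2),
    3 * m * (2 * c.2 ^ 2 - c.1 ^ 2), fun x => ?_⟩
  unfold A B
  ring

lemma rz_iff (m : ℕ) (c : ℤ × ℤ) : Pool.Agent.N855.DI.RZ (A m c) (B m c) ↔ Trivial (E m c) := by
  have h : Trivial (E m c) ↔ TrivW (E m c) := Iff.rfl
  rw [h, trivW_iff]
  refine and_congr Iff.rfl (forall_congr' fun x => ?_)
  rw [two_nsmul]
  exact Iff.rfl

open Classical in
/-- **The theorem.** -/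
theorem result : ∃ φ : List (List ℤ) →. Bool, Partrec φ ∧
    -- the values are correct
    (∀ L, ∀ v ∈ φ L, (v = true ↔ (Zeros L).Infinite)) ∧
    ∀ F : Finset (ℤ × ℤ), F.Nonempty → (∀ c ∈ F, Pair c) →
      -- the twists
      (∃ δ : ℝ, 0 < δ ∧ ∀ᶠ X : ℕ in atTop, δ * X ≤ count (N F) X) ∧
      (∀ r : ℕ, ∃ d : Fin r → ℕ, (∀ i, Disc F (d i)) ∧ Independent d) ∧
      ∀ (r : ℕ) (d : Fin r → ℕ), (∀ i, Disc F (d i)) → Independent d →
        -- the values at the curves
        (∀ n : ℕ, N F n → ∀ T : Finset (Fin r), ∀ c ∈ F,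
          (true ∈ φ (f (n * ∏ i ∈ T, d i) c) ↔ (Zeros (f (n * ∏ i ∈ T, d i) c)).Infinite) ∧
          (false ∈ φ (f (n * ∏ i ∈ T, d i) c) ↔ Trivial (E (n * ∏ i ∈ T, d i) c)) ∧
          (false ∈ φ (f (n * ∏ i ∈ T, d i) c) ↔ NoFour (n * ∏ i ∈ T, d i))) ∧
        -- the joint law
        (∀ V : Finset (Finset (Fin r)),
          HasDensity (N F) (fun n => ∀ T, (AllFalse φ F (n * ∏ i ∈ T, d i) ↔ T ∈ V))
            (eta ^ V.card * (1 - eta) ^ (2 ^ r - V.card))) ∧
        -- the binomial law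
        (∀ k : ℕ, HasDensity (N F)
          (fun n => (Finset.univ.filter fun T : Finset (Fin r) => AllFalse φ F (n * ∏ i ∈ T, d i)).card = k)
          ((2 ^ r).choose k * (eta ^ k * (1 - eta) ^ (2 ^ r - k)))) := by
  obtain ⟨φ, hφ, hsound, hf, ht⟩ := Pool.Agent.N855.DI.alg
  refine ⟨φ, hφ, hsound, fun F hne hF => ?_⟩
  have hF' : ∀ c ∈ F, Pr c := fun c hc => pair_imp (hF c hc)
  refine ⟨?_, fun r => ?_, fun r d hd hi => ?_⟩
  · obtain ⟨δ, hδ, X₁, hlow⟩ := parts2.p.low F hF'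
    refine ⟨δ, hδ, eventually_atTop.2 ⟨X₁, fun X hX => ?_⟩⟩
    have e : N F = fun n => n ∈ NF F := funext fun n => propext (N_iff hF n)
    rw [e]
    exact hlow X hX
  · obtain ⟨d, h1, h2⟩ := fields hF' r
    exact ⟨d, fun i => (D_iff F _).2 (h1 i), h2⟩
  have hDc : ∀ i, Dc F (d i) := fun i => (D_iff F _).1 (hd i)
  -- the values
  have hval : ∀ n : ℕ, N F n → ∀ T : Finset (Fin r), ∀ c ∈ F,
      (false ∈ φ (f (n * ∏ i ∈ T, d i) c) ↔ Trivial (E (n * ∏ i ∈ T, d i) c)) ∧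
      (false ∈ φ (f (n * ∏ i ∈ T, d i) c) ↔ Qc (sfp (n * ∏ i ∈ T, d i))) := by
    intro n hn T c hc
    have hn' := (N_iff hF n).1 hn
    have hm : 0 < n * ∏ i ∈ T, d i :=
      Nat.mul_pos (Nat.pos_of_ne_zero hn.1.ne_zero) (pos_prod hDc T)
    have h1 : false ∈ φ (f (n * ∏ i ∈ T, d i) c) ↔ Trivial (E (n * ∏ i ∈ T, d i) c) :=
      (hf _ _ (rts (hF' c hc) hm)).trans (rz_iff _ _)
    exact ⟨h1, h1.trans (triv_prod hF' hDc hn' T hc)⟩
  have hall : ∀ n : ℕ, N F n → ∀ T : Finset (Fin r),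
      (AllFalse φ F (n * ∏ i ∈ T, d i) ↔ Qc (sfp (n * ∏ i ∈ T, d i))) := by
    intro n hn T
    obtain ⟨c₀, hc₀⟩ := hne
    exact ⟨fun h => (hval n hn T c₀ hc₀).2.1 (h c₀ hc₀), fun h c hc => (hval n hn T c hc).2.2 h⟩
  have hpat : ∀ V : Finset (Finset (Fin r)),
      HasDensity (N F) (fun n => ∀ T, (AllFalse φ F (n * ∏ i ∈ T, d i) ↔ T ∈ V))
        (eta ^ V.card * (1 - eta) ^ (2 ^ r - V.card)) := by
    intro V
    refine dens_iff' (fun n => (N_iff hF n).symm) (fun n hn => ?_) (dens_pat parts hF' hDc hi V)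
    refine forall_congr' fun T => ?_
    rw [hall n ((N_iff hF n).2 hn) T]
  refine ⟨fun n hn T c hc => ?_, hpat, fun k => ?_⟩
  · have hn' := (N_iff hF n).1 hn
    have hm : 0 < n * ∏ i ∈ T, d i :=
      Nat.mul_pos (Nat.pos_of_ne_zero hn.1.ne_zero) (pos_prod hDc T)
    refine ⟨ht _ _ (rts (hF' c hc) hm), (hval n hn T c hc).1, (hval n hn T c hc).2.trans ?_⟩
    rw [noFour_iff]
    exact (gd_iff hF' hDc hn' T).symm
  · have h := dens_card (ι := Finset (Fin r)) (P := N F)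
      (Q := fun n T => AllFalse φ F (n * ∏ i ∈ T, d i)) (η := eta)
      (fun V => by
        rw [Fintype.card_finset, Fintype.card_fin]
        exact hpat V) k
    rw [Fintype.card_finset, Fintype.card_fin] at h
    exact h

end proof

end Pool.Agent.Results.MP_d6ddbd_nt.ManyCurvesAtOnce
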