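import Pool.Agent.N62.AG.Main
import Pool.Agent.N227.AG.SND2
import Pool.Agent.N327.AG.CNT
import Pool.Agent.N524.AG.CLS
import Pool.Agent.N78.AG.NS
import Pool.Agent.N527.AG.REF
import Pool.Agent.N458.AG.REI
import Pool.Agent.N186.AG.SND1
import Pool.Agent.N360.AG.CPL
import Pool.Agent.Results.MP_a3f657_nt.TrivialSelInfTwists

/-!
# A partial algorithm for elliptic curves with exactly one rational point of order two

`E^D : y² = x³ + 5805 D² x - 285714 D³`, `D ≠ 0`, are the quadratic twists of `E = X_0(14)`, a curve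
without complex multiplication; they have exactly one rational point of order two (the starting
results of this page treat the curves with full rational 2-torsion and the cubic twists of
`x³ + y³ = 1`).

We construct one partial computable function `φ` on the set of the polynomials `f(x, y)` with integer
coefficients (lists of coefficient lists) such that:

* whenever `φ(f)` is defined, it is the correct answer to the question whether `f(x, y) = 0` has
  infinitely many rational solutions;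
* `φ` is defined (with the value true) at `y² - x³ - 5805 D² x + 285714 D³` for every `D ≠ 0` for which
  there are infinitely many rational points;
* let the class `Adm` consist of the squarefree `D = 1 mod 4` of any sign which are squares modulo `7`,
  prime to `3`, and all prime factors of which split completely in `ℚ(i, √2, √-7)` or are inert in
  `ℚ(√2)` and in `ℚ(√-7)`. For `D` in the class, `φ` has the value false at
  `y² - x³ - 5805 D² x + 285714 D³` if and only if `E^D(ℚ)` is finite and `Ш(E^D)[2 ^ ∞] = 0`;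
* the proportion of the `D` of the class (of a given sign, ordered by `|D|`) for which `φ` has the value
  false tends exactly to `c = ∏_{i ≥ 1} (1 - 2^{1 - 2 i}) = 0.4194...`;
* the same for the numbers with a FIXED number of prime factors taken from ARBITRARY disjoint sets of
  primes of positive lower density (each in one class of primes): the proportion tends to the rational
  number `∏_{i < ⌈ν / 2⌉} (1 - 2^{-(2i+1)})`, `ν` the number of the split prime factors.

The algorithm. True: search for a rational point of `y² = x³ + 13 D x² + 128 D² x` such that `x` and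
`2 x` are not squares, or of the 2-isogenous curve `y² = x³ - 26 D x² - 343 D² x` such that `x` and
`-7 x` are not squares; by descent by 2-isogeny there is one if and only if there are infinitely many
rational points. False: a primitive recursive test (quadratic symbols between the prime factors of
`D`, and whether `8` divides the number of the points of `X_0(14)` modulo a prime factor) that a matrix
over `𝔽₂` is nonsingular; by a theorem of the starting library (helpers 700, 17, 687 and their teams)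
this holds if and only if `E^D(ℚ)` is finite and `Ш(E^D)[2] = 0`. The laws are those of
`MP_a3f657_nt/TrivialSelInfTwists` and `MP_a3f657_nt/FixedNumberOfPrimes`.

Parts of the proof (`Pool/Agent/N62/AG/Stm.lean`) are by helpers 327, 524, 78, 527,
458, 186, 227, 360.
-/

set_option autoImplicit false

open Finset Filter Topology

namespace Pool.Agent.Results.MP_d6ddbd_nt.TwistsOneTwoTorsion

open Pool.Agent.TH841.SH.D (Sha)

/-- the set `Z_f(ℚ)` of the rational zeros of `f = ∑ L_(i,j) x^i y^j` -/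
def Zeros (L : List (List ℤ)) : Set (ℚ × ℚ) := {p : ℚ × ℚ |
  ∑ i ∈ Finset.range L.length, ∑ j ∈ Finset.range (L.getD i []).length,
    (((L.getD i []).getD j 0 : ℤ) : ℚ) * p.1 ^ i * p.2 ^ j = 0}

/-- coefficient of `y² = x³ + A D x + B D` -/
def A (D : ℤ) : ℤ := 5805 * D ^ 2

/-- coefficient of `y² = x³ + A D x + B D` -/
def B (D : ℤ) : ℤ := -285714 * D ^ 3

/-- the polynomial `y² - x³ - A D x - B D` -/
def poly (D : ℤ) : List (List ℤ) := [[-B D, 0, 1], [-A D], [], [-1]]

/-- the curve `E^D : y² = x³ + A D x + B D` over `ℚ` -/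
def E (D : ℤ) : WeierstrassCurve ℚ :=
  { a₁ := 0, a₂ := 0, a₃ := 0, a₄ := (A D : ℚ), a₆ := (B D : ℚ) }

/-- `E^D(ℚ)` is finite and `Ш(E^D)[2 ^ ∞] = 0` -/
def Trivial (D : ℤ) : Prop := Finite (E D).toAffine.Point ∧
  ∀ (k : ℕ) (x : Sha (E D)), (2 ^ k : ℕ) • x = 0 → x = 0

/-- `p` splits in `ℚ(√-7)` (for a prime `p ≠ 2, 7`) -/
def Splits (p : ℕ) : Prop := p % 7 = 1 ∨ p % 7 = 2 ∨ p % 7 = 4

/-- `p` is inert in `ℚ(√-7)` (for a prime `p ≠ 2, 7`) -/
def Inert (p : ℕ) : Prop := p % 7 = 3 ∨ p % 7 = 5 ∨ p % 7 = 6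

/-- the primes of the kind `r`: `r = 1`: `1 mod 8`, split in `ℚ(√-7)`; `r = 3`, `r = 5`: `r mod 8`, inert in
`ℚ(√-7)`, different from `3` -/
def Kind (r p : ℕ) : Prop :=
  p.Prime ∧ p ≠ 3 ∧ p % 8 = r ∧ (r = 1 ∧ Splits p ∨ (r = 3 ∨ r = 5) ∧ Inert p)

/-- the class of discriminants -/
def Adm (D : ℤ) : Prop := Squarefree D ∧ D % 4 = 1 ∧ (D % 7 = 1 ∨ D % 7 = 2 ∨ D % 7 = 4) ∧
  ∀ p : ℕ, p.Prime → (p : ℤ) ∣ D → Kind 1 p ∨ Kind 3 p ∨ Kind 5 p

/-- the number of the `D` in the class with `s D > 0`, `|D| ≤ X` and the property `Q` -/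
noncomputable def countD (s : ℤ) (Q : ℤ → Prop) (X : ℕ) : ℕ :=
  Nat.card {D : ℤ // |D| ≤ X ∧ Adm D ∧ 0 < s * D ∧ Q D}

/-- positive lower density in the set of the primes: at least `δ Y / log Y` elements up to `Y`, for a
`δ > 0` and all large `Y` -/
def Dense (S : Set ℕ) : Prop := ∃ (δ : ℝ) (Y₀ : ℕ), 0 < δ ∧ ∀ Y : ℕ, Y₀ ≤ Y →
  δ * (Y / Real.log Y) ≤ (Nat.card {p : ℕ // p ≤ Y ∧ p ∈ S} : ℝ)

/-- the limit -/
noncomputable def limit (a : ℕ) : ℝ := ∏ i ∈ range ((a + 1) / 2), (1 - (1 / 2 : ℝ) ^ (2 * i + 1))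

/-- `n` or `-n`, congruent to `1` modulo `4`, for odd `n` -/
def disc (n : ℕ) : ℤ := if n % 4 = 1 then (n : ℤ) else -(n : ℤ)

/-- the size of the family is between two constants times `X (log log X) ^ (k - 1) / log X`, and the
proportion of the good members has the limit `α` -/
def Law (total good : ℕ → ℕ) (k : ℕ) (α : ℝ) : Prop :=
  (∃ (c C : ℝ) (X₀ : ℕ), 0 < c ∧ 0 < C ∧ ∀ X : ℕ, X₀ ≤ X →
    c * (X * Real.log (Real.log X) ^ (k - 1) / Real.log X) ≤ (total X : ℝ) ∧
    (total X : ℝ) ≤ C * (X * Real.log (Real.log X) ^ (k - 1) / Real.log X)) ∧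
  Tendsto (fun X : ℕ => (good X : ℝ) / (total X : ℝ)) atTop (𝓝 α)

/-- the sum of the `n c` over the `c` with `K c = r` -/
def total {m : ℕ} (K n : Fin m → ℕ) (r : ℕ) : ℕ := ∑ c ∈ univ.filter (fun c => K c = r), n c

/-- `N` is squarefree, all its prime factors are in the union of the sets `S c`, and exactly `n c` of them
are in `S c` -/
def Family {m : ℕ} (S : Fin m → Set ℕ) (n : Fin m → ℕ) (N : ℕ) : Prop :=
  Squarefree N ∧ (∀ p : ℕ, p.Prime → p ∣ N → ∃ c, p ∈ S c) ∧
    ∀ c, Nat.card {p : ℕ // p.Prime ∧ p ∣ N ∧ p ∈ S c} = n c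

/-- the number of the `N` with `1 ≤ N ≤ X` and `Q N` -/
noncomputable def count (Q : ℕ → Prop) (X : ℕ) : ℕ := Nat.card {N : ℕ // 1 ≤ N ∧ N ≤ X ∧ Q N}

section proof

open Pool.Agent.Results.MP_a3f657_nt

theorem trivial_iff {D : ℤ} : Trivial D ↔ Pool.Agent.Y17.X.RZ D := by
  constructor
  · rintro ⟨h1, h2⟩
    have h3 : ∀ x : Sha (E D), x + x = 0 → x = 0 := by
      intro x hx
      refine h2 1 x ?_
      rw [pow_one, two_nsmul]
      exact hx
    exact ⟨h1, h3⟩
  · rintro ⟨h1, h2⟩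
    exact ⟨h1, Pool.Agent.Y17.X.SI.pow_of_two h2⟩

theorem adm_iff (D : ℤ) : Adm D ↔ TrivialSelInfTwists.Adm D := by
  unfold Adm TrivialSelInfTwists.Adm
  refine and_congr_right fun _ => and_congr_right fun _ => and_congr_right fun _ =>
    forall_congr' fun p => forall_congr' fun hp => forall_congr' fun _ => ?_
  unfold Kind Splits Inert TrivialSelInfTwists.Split TrivialSelInfTwists.Inert
  constructor
  · rintro (h | h | h)
    · refine ⟨h.2.1, Or.inl ⟨hp, h.2.2.1, ?_⟩⟩
      rcases h.2.2.2 with h4 | h4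
      · exact h4.2
      · omega
    · refine ⟨h.2.1, Or.inr ⟨hp, Or.inl h.2.2.1, ?_⟩⟩
      rcases h.2.2.2 with h4 | h4
      · omega
      · exact h4.2
    · refine ⟨h.2.1, Or.inr ⟨hp, Or.inr h.2.2.1, ?_⟩⟩
      rcases h.2.2.2 with h4 | h4
      · omega
      · exact h4.2
  · rintro ⟨h3, h | h⟩
    · exact Or.inl ⟨hp, h3, h.2.1, Or.inl ⟨rfl, h.2.2⟩⟩
    · rcases h.2.1 with h4 | h4
      · exact Or.inr (Or.inl ⟨hp, h3, h4, Or.inr ⟨Or.inl rfl, h.2.2⟩⟩)
      · exact Or.inr (Or.inr ⟨hp, h3, h4, Or.inr ⟨Or.inr rfl, h.2.2⟩⟩)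

theorem adm_iff' (D : ℤ) : Adm D ↔ Pool.Agent.Y687.MQ.AdmD D := adm_iff D

theorem zs_iff {D : ℤ} (hD : D ≠ 0) : FixedNumberOfPrimes.ZeroSeq D ↔ Trivial D := by
  rw [trivial_iff]
  exact FixedNumberOfPrimes.zs_rz hD

theorem main (hC : Pool.Agent.N62.AG.S_CNT) (hL : Pool.Agent.N62.AG.S_CLS)
    (hN : Pool.Agent.N62.AG.S_NS) (hI : Pool.Agent.N62.AG.S_REI) (hF : Pool.Agent.N62.AG.S_REF)
    (h1 : Pool.Agent.N62.AG.S_SND1) (h2 : Pool.Agent.N62.AG.S_SND2)
    (h3 : Pool.Agent.N62.AG.S_CPL) :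
    ∃ φ : List (List ℤ) →. Bool, Partrec φ ∧
    (∀ L, ∀ r ∈ φ L, (r = true ↔ (Zeros L).Infinite)) ∧
    (∀ D : ℤ, D ≠ 0 → (Zeros (poly D)).Infinite → (φ (poly D)).Dom) ∧
    (∀ D : ℤ, Adm D → (false ∈ φ (poly D) ↔ Trivial D)) ∧
    (∀ D : ℤ, Adm D → ((φ (poly D)).Dom ↔ Trivial D ∨ (Zeros (poly D)).Infinite)) ∧
    (∀ s : ℤ, (s = 1 ∨ s = -1) → ∃ (a : ℝ) (X₀ : ℕ), 0 < a ∧ ∀ X : ℕ, X₀ ≤ X →
      a * (X * (Real.log X) ^ (-(5 / 8) : ℝ)) ≤ (countD s (fun _ => True) X : ℝ)) ∧
    (∃ c : ℝ, 0.4194 < c ∧ c < 0.4195 ∧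
      Tendsto (fun n : ℕ => ∏ i ∈ range n, (1 - (1 / 2 : ℝ) ^ (2 * i + 1))) atTop (𝓝 c) ∧
      Tendsto limit atTop (𝓝 c) ∧
      ∀ s : ℤ, (s = 1 ∨ s = -1) → Tendsto (fun X : ℕ =>
        (countD s (fun D => false ∈ φ (poly D)) X : ℝ) / (countD s (fun _ => True) X : ℝ))
          atTop (𝓝 c)) ∧
    (∀ (m : ℕ) (S : Fin m → Set ℕ) (K n : Fin m → ℕ),
      (∀ c, Dense (S c)) → (∀ c c', c ≠ c' → Disjoint (S c) (S c')) →
      (∀ c, ∀ p ∈ S c, Kind (K c) p) →
      Even (total K n 5) → 1 ≤ total K n 3 + total K n 5 →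
      (∀ N, Family S n N → (false ∈ φ (poly (disc N)) ↔ Trivial (disc N))) ∧
      Law (count (Family S n)) (count fun N => Family S n N ∧ false ∈ φ (poly (disc N)))
        (∑ c, n c) (limit (total K n 1))) ∧
    (∀ a b, a ≤ b → 0 < limit b ∧ limit b ≤ limit a) ∧
    ∀ q t : ℕ, 1 ≤ q → Nat.Coprime t q → Dense {p : ℕ | p.Prime ∧ p % q = t % q} := by
  obtain ⟨φ, hφ, hsound, hdom, hfalse⟩ := Pool.Agent.N62.AG.algorithm hC hL hN hI hF h1 h2 h3
  have hfalse' : ∀ D : ℤ, Adm D → (false ∈ φ (poly D) ↔ Trivial D) := by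
    intro D hD
    rw [trivial_iff]
    exact hfalse D ((adm_iff' D).1 hD)
  obtain ⟨-, -, c, hc1, hc2, hc3, hc4⟩ := TrivialSelInfTwists.result
  obtain ⟨hx1, hx2, ⟨c', -, -, hx3, hx4⟩, hx5⟩ := FixedNumberOfPrimes.result
  have hcc : c' = c := tendsto_nhds_unique hx3 hc3
  subst hcc
  have hcount : ∀ (s : ℤ) (Q : ℤ → Prop) (Q' : ℤ → Prop) (X : ℕ), (∀ D, Adm D → (Q D ↔ Q' D)) →
      countD s Q X = TrivialSelInfTwists.count s Q' X := by
    intro s Q Q' X hQ
    unfold countD TrivialSelInfTwists.count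
    refine Nat.card_congr (Equiv.subtypeEquivRight fun D => ?_)
    refine and_congr_right fun _ => ?_
    rw [adm_iff D]
    refine and_congr_right fun h => and_congr_right fun _ => hQ D ((adm_iff D).2 h)
  have hT : ∀ (s : ℤ) (X : ℕ), countD s (fun _ => True) X =
      TrivialSelInfTwists.count s (fun _ => True) X := fun s X =>
    hcount s _ _ X fun _ _ => Iff.rfl
  refine ⟨φ, hφ, hsound, hdom, hfalse', fun D hD => ?_, fun s hs => ?_,
    ⟨c', hc1, hc2, hc3, hx4, fun s hs => ?_⟩, ?_, hx2, hx5⟩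
  · constructor
    · intro h
      obtain ⟨r, hr⟩ := Part.dom_iff_mem.1 h
      cases r with
      | true => exact Or.inr ((hsound _ _ hr).1 rfl)
      | false => exact Or.inl ((hfalse' D hD).1 hr)
    · rintro (h | h)
      · exact Part.dom_iff_mem.2 ⟨false, (hfalse' D hD).2 h⟩
      · exact hdom D hD.1.ne_zero h
  · obtain ⟨-, h4⟩ := hc4 s hs
    obtain ⟨-, a, X₀, ha, h5⟩ := h4 ∅ ∅ (fun m hm => absurd hm (notMem_empty m))
      (fun m hm => absurd hm (notMem_empty m)) (disjoint_empty_right _)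
    refine ⟨a, X₀, ha, fun X hX => (h5 X hX).trans (le_of_eq ?_)⟩
    rw [hT]
    congr 2
    funext D
    simp
  · refine (hc4 s hs).1.congr fun X => ?_
    rw [hT, hcount s (fun D => false ∈ φ (poly D)) TrivialSelInfTwists.ZeroSeq X fun D hD => ?_]
    rw [hfalse' D hD]
    exact (zs_iff hD.1.ne_zero).symm
  · intro m S K n hD hd hS h5 h35
    have hfam : ∀ N, Family S n N → Adm (disc N) := fun N hN =>
      (adm_iff' _).2 (FixedNumberOfPrimes.crit14 hd hS h5 hN).1
    refine ⟨fun N hN => hfalse' _ (hfam N hN), ?_⟩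
    have h6 := (hx1 m S K n hD hd hS h5 h35).2
    have h7 : (count fun N => Family S n N ∧ false ∈ φ (poly (disc N))) =
        FixedNumberOfPrimes.count fun N => FixedNumberOfPrimes.Family S n N ∧
          FixedNumberOfPrimes.ZeroSeq (FixedNumberOfPrimes.disc N) := by
      funext X
      unfold count FixedNumberOfPrimes.count
      refine Nat.card_congr (Equiv.subtypeEquivRight fun N => ?_)
      refine and_congr_right fun _ => and_congr_right fun _ => ?_
      refine and_congr_right fun hN => ?_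
      rw [hfalse' _ (hfam N hN)]
      exact (zs_iff (hfam N hN).1.ne_zero).symm
    rw [h7]
    exact h6

end proof

/-- **Theorem.** There is a partial computable function `φ` from the lists of lists of integers
(polynomials `f(x, y)`) to `{true, false}` such that
(1) if `φ(f)` is defined, then it is `true` if and only if `f` has infinitely many rational zeros;
(2) for every `D ≠ 0`: if `y² - x³ - A D x - B D` has infinitely many rational zeros, then `φ` is defined
at this polynomial (with the value `true`, by (1));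
(3) for `D` in the class: `φ` has the value `false` at `y² - x³ - A D x - B D` if and only if `E^D(ℚ)` is
finite and `Ш(E^D)[2 ^ ∞] = 0`;
(4) for `D` in the class: `φ` is defined at `y² - x³ - A D x - B D` if and only if this is true or there
are infinitely many rational zeros;
(5) there are at least `a X (log X) ^ (-5/8)` members `D` of the class of a given sign with `|D| ≤ X`;
(6) the proportion of the members `D` of the class of a given sign with the value `false` tends to
`c = ∏_{i ≥ 1} (1 - 2^{1 - 2 i})`, `0.4194 < c < 0.4195`, which is also the limit of `limit a`;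
(7) the law for a fixed number of prime factors from arbitrary sets of primes `S c` of positive lower
density, each contained in one kind of primes; (8) `limit` is positive and nonincreasing; (9) the sets
of the primes in the residue classes are dense. -/
theorem result :
    ∃ φ : List (List ℤ) →. Bool, Partrec φ ∧
    (∀ L, ∀ r ∈ φ L, (r = true ↔ (Zeros L).Infinite)) ∧
    (∀ D : ℤ, D ≠ 0 → (Zeros (poly D)).Infinite → (φ (poly D)).Dom) ∧
    (∀ D : ℤ, Adm D → (false ∈ φ (poly D) ↔ Trivial D)) ∧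
    (∀ D : ℤ, Adm D → ((φ (poly D)).Dom ↔ Trivial D ∨ (Zeros (poly D)).Infinite)) ∧
    (∀ s : ℤ, (s = 1 ∨ s = -1) → ∃ (a : ℝ) (X₀ : ℕ), 0 < a ∧ ∀ X : ℕ, X₀ ≤ X →
      a * (X * (Real.log X) ^ (-(5 / 8) : ℝ)) ≤ (countD s (fun _ => True) X : ℝ)) ∧
    (∃ c : ℝ, 0.4194 < c ∧ c < 0.4195 ∧
      Tendsto (fun n : ℕ => ∏ i ∈ range n, (1 - (1 / 2 : ℝ) ^ (2 * i + 1))) atTop (𝓝 c) ∧
      Tendsto limit atTop (𝓝 c) ∧
      ∀ s : ℤ, (s = 1 ∨ s = -1) → Tendsto (fun X : ℕ =>
        (countD s (fun D => false ∈ φ (poly D)) X : ℝ) / (countD s (fun _ => True) X : ℝ))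
          atTop (𝓝 c)) ∧
    (∀ (m : ℕ) (S : Fin m → Set ℕ) (K n : Fin m → ℕ),
      (∀ c, Dense (S c)) → (∀ c c', c ≠ c' → Disjoint (S c) (S c')) →
      (∀ c, ∀ p ∈ S c, Kind (K c) p) →
      Even (total K n 5) → 1 ≤ total K n 3 + total K n 5 →
      (∀ N, Family S n N → (false ∈ φ (poly (disc N)) ↔ Trivial (disc N))) ∧
      Law (count (Family S n)) (count fun N => Family S n N ∧ false ∈ φ (poly (disc N)))
        (∑ c, n c) (limit (total K n 1))) ∧
    (∀ a b, a ≤ b → 0 < limit b ∧ limit b ≤ limit a) ∧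
    ∀ q t : ℕ, 1 ≤ q → Nat.Coprime t q → Dense {p : ℕ | p.Prime ∧ p % q = t % q} :=
  main Pool.Agent.N327.AG.CNT.t Pool.Agent.N524.AG.CLS.t Pool.Agent.N78.AG.NS.t
    Pool.Agent.N458.AG.REI.t Pool.Agent.N527.AG.REF.t Pool.Agent.N186.AG.SND1.t
    Pool.Agent.N227.AG.SND2.t Pool.Agent.N360.AG.CPL.t

end Pool.Agent.Results.MP_d6ddbd_nt.TwistsOneTwoTorsion
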